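import Mathlib
import Pool.Agent.W603.BR.Sets

/-!
The special sets of families of power sparse varieties over a Picard hyperbolic base.
-/

namespace Pool.Agent.Results.MP_160ed4_ag.PowerSparseFamilies

open MvPolynomial Pool.Agent.W603.BP Pool.Agent.W603.BR

theorem result {m n : ℕ} {ι κ τ : Type} (U : Set (Fin (n + 1)))
    (H : ι → MvPolynomial (Fin (m + 1)) ℂ) (Q : κ → MvPolynomial (Fin (m + 1)) ℂ)
    (_hH : ∀ i, ∃ d, (H i).IsHomogeneous d) (_hQ : ∀ j, ∃ d, (Q j).IsHomogeneous d)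
    (hB : ∀ b, BCurve H Q b → Extends b)
    (F : τ → MvPolynomial (Fin (n + 1)) (MvPolynomial (Fin (m + 1)) ℂ))
    (hF : ∀ i, BiHom (F i)) (hS : ∀ i, PSparse U (F i)) :
    zcl U H Q F (picPts U H Q F) = zcl U H Q F (orbPts U H Q F) ∧
      zcl U H Q F (entPts U H Q F) = zcl U H Q F (orbPts U H Q F) ∧
      (Finite τ → Irr U H Q F →
        (PseudoPicardX U H Q F ↔ PseudoBrodyX U H Q F) ∧ (PseudoPicardX U H Q F ↔
          ∀ β : Fin (n + 1) → ℤ,
            (∀ x ∈ XPts U H Q F, ∀ t : ℂ, t ≠ 0 → act β t x ∈ XPts U H Q F) →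
              ∀ x ∈ XPts U H Q F, ∀ j k, x.2 j ≠ 0 → x.2 k ≠ 0 → β j = β k)) ∧
      ((∀ f, XCurve U H Q F f → ExtX f) ↔ ∀ f, ¬ EntX U H Q F f) :=
  ⟨(zcl_eq (fun i => (hF i).1) hS hB).1, (zcl_eq (fun i => (hF i).1) hS hB).2,
    fun _ hI => main_iff hF hS hB hI, picard_iff (fun i => (hF i).1) hS hB⟩

end Pool.Agent.Results.MP_160ed4_ag.PowerSparseFamilies
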