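import Pool.Agent.W600.Alg.Thm

/-!
# Special sets of multi-cyclic covers of complete intersections with `K + D ≤ 0`

`X` is the quasi-projective variety in the weighted projective space `P(1, …, 1, e 1, …, e r)` with
the equations `G j (x) = 0` (of degree `d j`) and `w i ^ m i = F i (x)` (of degree `m i * e i`) and
the condition `B (x) ≠ 0` (`B` of degree `δ`), and `K + D = O(∑ (m i - 1) e i + ∑ d j + δ - n - 1)`
is at most `0`. The special sets `Sp_sab (X)` (even with one-dimensional semi-abelian varieties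
only), `Sp_h (X)` and `Sp_p (X)` are equal to `X`.
-/

set_option autoImplicit false

namespace Pool.Agent.Results.MP_160ed4_ag.SemiAbelianCovers

open MvPolynomial Pool.Agent.W600 Pool.Agent.W600.Alg

theorem result {n r g : ℕ} {m : Fin r → ℕ} (hm : ∀ i, 2 ≤ m i)
    {F : Fin r → MvPolynomial (Fin (n + 1)) ℂ} {e : Fin r → ℕ} (he : ∀ i, 0 < e i)
    (hF : ∀ i, (F i).IsHomogeneous (m i * e i))
    {G : Fin g → MvPolynomial (Fin (n + 1)) ℂ} {d : Fin g → ℕ} (hG : ∀ i, (G i).IsHomogeneous (d i))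
    {B : MvPolynomial (Fin (n + 1)) ℂ} {δ : ℕ} (hB : B.IsHomogeneous δ)
    (hK : ∑ i, (m i - 1) * e i + δ + ∑ j, d j ≤ n + 1)
    (h0 : δ = 0 → ∑ i, (m i - 1) * e i + ∑ j, d j = n + 1 →
      (∃ i, 3 ∣ m i ∨ 4 ∣ m i) ∨ 2 ≤ ∑ i with 2 ∣ m i, e i)
    (h0' : δ = 0 → ∑ i, (m i - 1) * e i + ∑ j, d j = n → 0 < r)
    (h1 : δ = 1 → ∑ i, (m i - 1) * e i + ∑ j, d j = n → ∃ i, 2 ∣ m i)
    (hirr : Ell.Irr e (Ell.Pts m F G B)) (hFX : ∀ i, ∃ P ∈ Ell.Pts m F G B, eval P.1 (F i) ≠ 0) :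
    SpSab e (Ell.Pts m F G B) = Ell.Pts m F G B ∧ SpHol e (Ell.Pts m F G B) = Ell.Pts m F G B ∧
      SpPic e (Ell.Pts m F G B) (Ell.Pts m F G 1) = Ell.Pts m F G B :=
  special hm he hF hG hB hK h0 h0' h1 hirr hFX

end Pool.Agent.Results.MP_160ed4_ag.SemiAbelianCovers
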