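import Pool.Agent.W602.GT.PsFin

/-!
MP_160ed4_ag, Q1: the five conditions for quasi-projective varieties given by forms with few
monomials and large exponents.
-/

set_option autoImplicit false

namespace Pool.Agent.Results.MP_160ed4_ag.SparseFiveConditions

open Pool.Agent.W602.GT Pool.Agent.H159R3.GGLLog Pool.Agent.W603.BP

/-- For the open part `x_j ≠ 0` (`j` in `U`) of a projective variety given by forms with at most `s`
monomials in which the exponents of the other variables are divisible by large numbers, the special
sets `Sp_alg`, `Sp_h`, `Sp_p` and the closure of the images of the multiplicative group coincide. If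
the variety is irreducible of positive dimension, it is of log general type if and only if these
sets are not the whole variety. -/
theorem result {n : ℕ} {ι : Type} (U : Set (Fin (n + 1)))
    (F : ι → MvPolynomial (Fin (n + 1)) ℂ) {s N : ℕ} (hF : ∀ e, IsPowSparse U s N (F e))
    (hN : 1 ≤ N) (hsN : (s - 1) ^ 2 ≤ N) (hnN : n * ((s + 1) * ((s - 1) * (s - 2) / 2)) ≤ N) :
    (SpAlgU U F = SpH U F ∧ SpP U F = SpH U F ∧ SpT U F = SpH U F) ∧
    (Finite ι → ∀ (K : Type) [Field K] [Algebra ℂ K] (w : ℕ) (y : Fin (n + 1) → K), 1 ≤ w →
      SubVarU U F K w y → GenericU U F y → Irred U F →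
      [LogGeneralType ℂ K w (OffU U y), SpAlgU U F ≠ Pts U F, SpP U F ≠ Pts U F,
        SpH U F ≠ Pts U F, SpT U F ≠ Pts U F].TFAE) := by
  refine five U F hF ?_ fun e => ?_
  · have h : tn (s - 1) = (s - 1) * (s - 2) / 2 := by
      unfold tn
      rw [Fin.sum_univ_eq_sum_range (fun i => i), Finset.sum_range_id, Nat.sub_sub]
    rw [h]
    exact hnN
  · obtain ⟨-, h1, N', h2, h3⟩ := hF e
    refine ⟨N', by omega, ?_, h3⟩
    have h4 : (F e).support.card - 1 ≤ s - 1 := by omega
    exact ((Nat.pow_le_pow_left h4 2).trans hsN).trans h2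

end Pool.Agent.Results.MP_160ed4_ag.SparseFiveConditions
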