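import Mathlib
import Pool.Agent.W603.GY.SpAll

/-!
The five conditions of the generalised Green-Griffiths-Lang conjecture for quasi-projective
varieties given by sums of few high powers of linear forms, with any number of boundary divisors.
-/

set_option autoImplicit false

namespace Pool.Agent.Results.MP_160ed4_ag.WaringFiveConditions

open FF MvPolynomial Pool.Agent.H159R3.War Pool.Agent.H159R3.WarLog Pool.Agent.W603.BP
  Pool.Agent.W603.BPW Pool.Agent.W603.GW Pool.Agent.W603.GX Pool.Agent.W603.GY Pool.Agent.W602.GT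

theorem result {n : ℕ} {ι κ : Type} [Finite κ] (F : ι → MvPolynomial (Fin (n + 1)) ℂ)
    (Q : κ → MvPolynomial (Fin (n + 1)) ℂ) (hF : ∀ i, SmallWaring (F i))
    (hQ : ∀ j, ∃ d, SmallWaringLog (Q j) d) :
    -- the special set `Sp_p`, and log general type implies hyperbolicity
    (picPoints F Q = gmPoints F Q ∧ zcl F Q (gmPoints F Q) = gmPoints F Q ∧
      ((∀ f, PCurve F Q f → Extends f) ↔ ∀ f, ¬ EntireCurve F Q f) ∧
      ∀ (K : Type) [Field K] [Algebra ℂ K] (w : ℕ) (y : Fin (n + 1) → K),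
        SubVarQ F Q K w y → GenericQ F Q y → LogGeneralType ℂ K w (OffAny Q y) →
        gmPoints F Q ≠ Pts F Q) ∧
    ∀ S N : ℕ, (∀ i, IsPowSum S N (F i)) → (∀ j, IsPowSum (S - 1) N (Q j)) → 1 ≤ N →
      n * ((S + 1) * ((S - 1) * (S - 2) / 2)) ≤ N →
      -- the special set `Sp_alg`
      SpAlgQ F Q = gmPoints F Q ∧
      -- log general type
      (∀ (K : Type) [Field K] [Algebra ℂ K] (w : ℕ) (y : Fin (n + 1) → K),
        SubVarQ F Q K w y → GenericQ F Q y →
        (LogGeneralType ℂ K w (OffAny Q y) ↔ gmPoints F Q ≠ Pts F Q)) ∧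
      -- varieties with a generically finite morphism to `X`
      ∀ (K : Type) [Field K] [Algebra ℂ K] (w : ℕ) (y : Fin (n + 1) → K)
        (G : MvPolynomial (Fin (n + 1)) ℂ) (Bd : Place ℂ K → Prop),
        MapQ F Q K w y → (∀ x ∈ gmPoints F Q, eval x G = 0) → val y G ≠ 0 →
        (∀ P, OffAny Q y P → Bd P) → LogGeneralType ℂ K w Bd := by
  obtain ⟨h1, h2⟩ := pic_eq F Q hF hQ
  refine ⟨⟨h2, by rw [h2] at h1; exact h1, picard_iff F Q hF hQ, fun K _ _ w y hy hg h =>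
    ne_of_lgt hF hQ hy hg h⟩, ?_⟩
  intro S N hF' hQ' hN1 hN
  refine ⟨Set.Subset.antisymm (alg_sub_gm2 F Q hF hQ hF' hQ' hN1 (by rw [tn_eq]; exact hN))
    (gm_sub_alg F Q hF hQ), fun K _ _ w y hy hg => ⟨fun h => ne_of_lgt hF hQ hy hg h,
    fun h => lgt_of_gm_ne hF hQ hF' hQ' hN1 hN h hy hg⟩, ?_⟩
  intro K _ _ w y G Bd hy hG hGy hBd
  obtain ⟨htr, N', hN', ω, h3, h4, h5, h6⟩ := maps_lgt_gm hQ hF' hQ' hN1
    (by rw [tn_eq]; exact hN) hy hG hGy
  exact ⟨htr, N', hN', ω, h3, h4, fun P hP hb => h5 P hP fun ho => hb (hBd P ho), h6⟩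

end Pool.Agent.Results.MP_160ed4_ag.WaringFiveConditions
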